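import Pool.Agent.R273.Ci6

/-!
# Complex interpolation fails for Lipschitz maps that are only Gateaux differentiable

For every `θ ∈ (0,1)` there are complex Banach spaces `A₁ ⊂ A₀`, `B₁ ⊂ B₀` and a map
`U : A₀ → B₀` which is Lipschitz, maps `A₁` into `B₁` with `‖U a‖ ≤ M₁ ‖a‖`, is Gateaux
differentiable in the real sense at every point, and yet `U` does not map `[A₀, A₁]_θ` into
`[B₀, B₁]_θ`.  Here `A₀ = A₁ = ℓ₂`, `B₀ = B₁ = ℓ₁`, and the inclusions are
`(y_n) ↦ (exp (-λ n) y_n)`.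
-/

namespace Pool.Agent.Results.MP_754066_an.GateauxInterpFails

open Filter Topology Pool.Agent.R273.Ci

theorem result (θ : ℝ) (h0 : 0 < θ) (h1 : θ < 1) :
    ∃ (A₀ A₁ B₀ B₁ : Type)
      (_ : NormedAddCommGroup A₀) (_ : NormedSpace ℂ A₀) (_ : CompleteSpace A₀)
      (_ : NormedAddCommGroup A₁) (_ : NormedSpace ℂ A₁) (_ : CompleteSpace A₁)
      (_ : NormedAddCommGroup B₀) (_ : NormedSpace ℂ B₀) (_ : CompleteSpace B₀)
      (_ : NormedAddCommGroup B₁) (_ : NormedSpace ℂ B₁) (_ : CompleteSpace B₁)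
      (jA : A₁ →L[ℂ] A₀) (jB : B₁ →L[ℂ] B₀) (U : A₀ → B₀) (M₀ M₁ : ℝ),
      Function.Injective jA ∧ Function.Injective jB ∧
      (∀ a b : A₀, ‖U a - U b‖ ≤ M₀ * ‖a - b‖) ∧
      (∀ a : A₁, ∃ b : B₁, jB b = U (jA a) ∧ ‖b‖ ≤ M₁ * ‖a‖) ∧
      (∀ a : A₀, ∃ L : A₀ →L[ℝ] B₀, ∀ h : A₀,
        Tendsto (fun t : ℝ => t⁻¹ • (U (a + t • h) - U a)) (𝓝[≠] 0) (𝓝 (L h))) ∧
      ∃ a ∈ interpSpace jA θ, U a ∉ interpSpace jB θ := by
  have h1θ : 0 < 1 - θ := by linarith
  set lam : ℝ := Real.log 4 / (1 - θ) with hlam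
  have hlog : 0 < Real.log 4 := Real.log_pos (by norm_num)
  have hl : 0 < lam := by positivity
  have hlam' : (1 - θ) * lam = Real.log 4 := by rw [hlam]; field_simp
  have ha : ∀ n, 0 < aa θ lam n := aa_pos θ lam
  have hs : Summable (aa θ lam) := summable_aa h0 hl
  have hρ : Real.exp (-(lam * θ)) < 1 := by
    rw [Real.exp_lt_one_iff]; nlinarith [mul_pos hl h0]
  have hc : Memℓp (fun n : ℕ => (1 / ((n : ℂ) + 1))) 2 := by
    apply memℓp_gen
    have : Summable (fun n : ℕ => 1 / ((n : ℝ) + 1) ^ 2) := by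
      have h2 := (summable_nat_add_iff 1).2 (Real.summable_one_div_nat_pow.2 (one_lt_two))
      refine h2.congr fun n => ?_
      push_cast
      rfl
    refine this.congr fun n => ?_
    have e : ‖(1 / ((n : ℂ) + 1))‖ = 1 / ((n : ℝ) + 1) := by
      rw [norm_div, norm_one]
      congr 1
      have : ((n : ℂ) + 1) = (((n : ℝ) + 1 : ℝ) : ℂ) := by push_cast; rfl
      rw [this, Complex.norm_real, Real.norm_of_nonneg (by positivity)]
    rw [e]
    simp
  set c : E2 := ⟨fun n : ℕ => (1 / ((n : ℂ) + 1)), hc⟩ with hcdef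
  set A : E2 := FF lam hl.le c θ with hAdef
  have hA : ∀ n, A n = (aa θ lam n : ℂ) := by
    intro n
    rw [hAdef, FF_apply hl.le c (by simpa using h0.le)]
    change ez lam n θ * (1 / ((n : ℂ) + 1)) = _
    unfold ez aa
    push_cast
    ring
  refine ⟨E2, E2, E1, E1, inferInstance, inferInstance, inferInstance, inferInstance,
    inferInstance, inferInstance, inferInstance, inferInstance, inferInstance, inferInstance,
    inferInstance, inferInstance, jmap 2 lam hl.le, jmap 1 lam hl.le,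
    Pool.Agent.R273.Ci.U (aa θ lam) hs ha A, 40 / (1 - Real.exp (-(lam * θ))), 4,
    jmap_injective 2 lam hl.le, jmap_injective 1 lam hl.le,
    fun x y => U_lip hs ha (Real.exp_pos _).le hρ (fun n => aa_dec n) A x y,
    fun y => U_cond2 hs ha hl.le A hA (fun n => aa_grow hlam' n) y, ?_, A,
    mem_interp h0 hl.le c, ?_⟩
  · exact fun x => U_gateaux hs ha (Real.exp_pos _).le hρ (fun n => aa_dec n) A x
  · apply not_mem_interp h0 h1 hl.le
    intro n
    unfold Pool.Agent.R273.Ci.U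
    rw [R_self, Phi_apply, hf_zero]

end Pool.Agent.Results.MP_754066_an.GateauxInterpFails
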